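import Mathlib

set_option autoImplicit false

namespace Pool.Agent.H128R2.Evas

/-- Deterministic decision trees querying variables in `V`. -/
inductive DT (V : Type) : Type
  | leaf (b : Bool) : DT V
  | node (v : V) (t0 t1 : DT V) : DT V

namespace DT

variable {V W : Type}

/-- The output of the tree on the input `x`. -/
def eval : DT V → (V → Bool) → Bool
  | leaf b, _ => b
  | node v t0 t1, x => if x v then eval t1 x else eval t0 x

/-- The maximal number of queries. -/
def depth : DT V → ℕ
  | leaf _ => 0
  | node _ t0 t1 => max (depth t0) (depth t1) + 1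

/-- Replace every leaf `b` by the tree `k b`. -/
def graft : DT W → (Bool → DT W) → DT W
  | leaf b, k => k b
  | node w t0 t1, k => node w (graft t0 k) (graft t1 k)

theorem eval_graft (t : DT W) (k : Bool → DT W) (x : W → Bool) :
    (graft t k).eval x = (k (t.eval x)).eval x := by
  induction t with
  | leaf b => rfl
  | node w t0 t1 h0 h1 =>
    simp only [graft, eval]
    split_ifs
    · exact h1
    · exact h0

theorem depth_graft (t : DT W) (k : Bool → DT W) (D : ℕ) (hD : ∀ b, (k b).depth ≤ D) :
    (graft t k).depth ≤ t.depth + D := by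
  induction t with
  | leaf b => simpa [graft, depth] using hD b
  | node w t0 t1 h0 h1 =>
    simp only [graft, depth]
    omega

/-- Relabel the variables. -/
def map (g : V → W) : DT V → DT W
  | leaf b => leaf b
  | node v t0 t1 => node (g v) (map g t0) (map g t1)

theorem eval_map (g : V → W) (t : DT V) (x : W → Bool) :
    (map g t).eval x = t.eval (fun v => x (g v)) := by
  induction t with
  | leaf b => rfl
  | node w t0 t1 h0 h1 =>
    simp only [map, eval, h0, h1]

theorem depth_map (g : V → W) (t : DT V) : (map g t).depth = t.depth := by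
  induction t with
  | leaf b => rfl
  | node w t0 t1 h0 h1 =>
    simp only [map, depth, h0, h1]

/-- Replace every query of `v` by the tree `S v`. -/
def subst (S : V → DT W) : DT V → DT W
  | leaf b => leaf b
  | node v t0 t1 => graft (S v) (fun b => if b then subst S t1 else subst S t0)

theorem eval_subst (S : V → DT W) (t : DT V) (x : W → Bool) :
    (subst S t).eval x = t.eval (fun v => (S v).eval x) := by
  induction t with
  | leaf b => rfl
  | node v t0 t1 h0 h1 =>
    simp only [subst, eval, eval_graft]
    split_ifs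
    · exact h1
    · exact h0

theorem depth_subst (S : V → DT W) (D : ℕ) (hS : ∀ v, (S v).depth ≤ D) (t : DT V) :
    (subst S t).depth ≤ t.depth * D := by
  induction t with
  | leaf b => simp [subst, depth]
  | node v t0 t1 h0 h1 =>
    simp only [subst, depth]
    have h := depth_graft (S v) (fun b => if b then subst S t1 else subst S t0)
      (max t0.depth t1.depth * D) (by
        intro b
        cases b
        · simp only [Bool.false_eq_true, if_false]
          exact h0.trans (Nat.mul_le_mul_right _ (le_max_left _ _))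
        · simp only [if_true]
          exact h1.trans (Nat.mul_le_mul_right _ (le_max_right _ _)))
    have := hS v
    nlinarith

/-- The next query after the list of answers `l`. -/
def query : DT V → List Bool → Option V
  | leaf _, _ => none
  | node v _ _, [] => some v
  | node _ t0 t1, b :: l => if b then query t1 l else query t0 l

theorem eval_eq_of_path [Inhabited V] (t : DT V) : ∀ (d : ℕ), t.depth ≤ d →
    ∀ (x y : V → Bool) (p : ℕ → V),
      (∀ k : ℕ, k < d → p k = (t.query (List.ofFn (fun j : Fin k => x (p j.val)))).getD default) →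
      (∀ k : ℕ, k < d → x (p k) = y (p k)) → t.eval x = t.eval y := by
  induction t with
  | leaf b => intro d _ x y p _ _; rfl
  | node v t0 t1 h0 h1 =>
    intro d hd x y p hp hxy
    simp only [depth] at hd
    obtain ⟨d', rfl⟩ : ∃ d', d = d' + 1 := ⟨d - 1, by omega⟩
    have hp0 : p 0 = v := by
      have := hp 0 (by omega)
      simpa [query] using this
    have hv : x v = y v := by
      have := hxy 0 (by omega)
      rwa [hp0] at this
    have hstep : ∀ k : ℕ, k < d' → p (k + 1) =
        ((if x v then t1 else t0).query (List.ofFn (fun j : Fin k => x (p (j.val + 1))))).getD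
          default := by
      intro k hk
      have := hp (k + 1) (by omega)
      rw [List.ofFn_succ] at this
      simp only [Fin.val_zero, hp0, query, Fin.val_succ] at this
      rw [this]
      split_ifs <;> rfl
    simp only [eval, ← hv]
    by_cases hx : x v = true
    · simp only [hx, if_true] at hstep ⊢
      exact h1 d' (by omega) x y (fun k => p (k + 1)) hstep (fun k hk => hxy (k + 1) (by omega))
    · simp only [hx] at hstep ⊢
      exact h0 d' (by omega) x y (fun k => p (k + 1)) hstep (fun k hk => hxy (k + 1) (by omega))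

end DT

/-- Variables of the `k`-fold composition. -/
def PV (V : Type) : ℕ → Type
  | 0 => Unit
  | k + 1 => V × PV V k

/-- Pairing. -/
def PV.cons {V : Type} {k : ℕ} (v : V) (w : PV V k) : PV V (k + 1) := ((v, w) : V × PV V k)

noncomputable instance PV.fintype (V : Type) [Fintype V] : ∀ k, Fintype (PV V k)
  | 0 => inferInstanceAs (Fintype Unit)
  | k + 1 => @instFintypeProd V (PV V k) _ (PV.fintype V k)

theorem card_PV (V : Type) [Fintype V] : ∀ k, Fintype.card (PV V k) = Fintype.card V ^ k
  | 0 => rfl
  | k + 1 => by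
    have h : Fintype.card (PV V (k + 1)) = Fintype.card V * Fintype.card (PV V k) :=
      @Fintype.card_prod V (PV V k) _ (PV.fintype V k)
    rw [h, card_PV V k, pow_succ, mul_comm]

/-- The `k`-fold composition of `f`. -/
def pow {V : Type} (f : (V → Bool) → Bool) : ∀ k : ℕ, (PV V k → Bool) → Bool
  | 0, x => x ()
  | k + 1, x => f (fun v => pow f k (fun w => x (PV.cons v w)))

theorem pow_mono {V : Type} (f : (V → Bool) → Bool) (hf : Monotone f) :
    ∀ k, Monotone (pow f k)
  | 0 => fun _ _ h => h ()
  | k + 1 => fun _ _ h => hf (fun v => pow_mono f hf k (fun w => h (v, w)))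

theorem pow_const {V : Type} (f : (V → Bool) → Bool) (b : Bool) (hb : f (fun _ => b) = b) :
    ∀ k, pow f k (fun _ => b) = b
  | 0 => rfl
  | k + 1 => by
    show f (fun v => pow f k (fun w => b)) = b
    simp only [pow_const f b hb k, hb]

theorem pow_trans {V : Type} (f : (V → Bool) → Bool)
    (ht : ∀ i j : V, ∃ σ : Equiv.Perm V, σ i = j ∧ ∀ x : V → Bool, f (x ∘ σ) = f x) :
    ∀ (k : ℕ) (i j : PV V k), ∃ σ : Equiv.Perm (PV V k), σ i = j ∧
      ∀ x : PV V k → Bool, pow f k (x ∘ σ) = pow f k x
  | 0, _, _ => ⟨Equiv.refl _, rfl, fun _ => rfl⟩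
  | k + 1, (i, i'), (j, j') => by
    obtain ⟨σ, hσ, hσ'⟩ := ht i j
    obtain ⟨τ, hτ, hτ'⟩ := pow_trans f ht k i' j'
    refine ⟨(Equiv.prodCongr σ τ : V × PV V k ≃ V × PV V k), ?_, ?_⟩
    · show (σ i, τ i') = (j, j')
      rw [hσ, hτ]
    · intro x
      show f (fun v => pow f k (fun w => x (PV.cons (σ v) (τ w)))) =
        f (fun v => pow f k (fun w => x (PV.cons v w)))
      have h1 : (fun v => pow f k (fun w => x (PV.cons (σ v) (τ w)))) =
          (fun v => pow f k (fun w => x (PV.cons v w))) ∘ σ := by
        funext v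
        exact hτ' (fun w => x (PV.cons (σ v) w))
      rw [h1, hσ']

theorem pow_tree {V : Type} (f : (V → Bool) → Bool) (T : DT V) (hT : ∀ x, T.eval x = f x) :
    ∀ k : ℕ, ∃ t : DT (PV V k), (∀ x, t.eval x = pow f k x) ∧ t.depth ≤ T.depth ^ k
  | 0 => ⟨DT.node () (DT.leaf false) (DT.leaf true), by
      intro x
      simp only [DT.eval, pow]
      cases h : x () <;> simp, by simp [DT.depth]⟩
  | k + 1 => by
    obtain ⟨t, ht, hd⟩ := pow_tree f T hT k
    refine ⟨DT.subst (fun v => DT.map (PV.cons v) t) T, ?_, ?_⟩
    · intro x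
      rw [DT.eval_subst, hT]
      simp only [DT.eval_map, ht, pow]
    · refine (DT.depth_subst _ (T.depth ^ k) ?_ T).trans ?_
      · intro v
        rw [DT.depth_map]
        exact hd
      · rw [pow_succ, mul_comm]

/-- A single nonevasive (`depth + 1 ≤ card`) nonconstant monotone transitive function refutes the
weak evasiveness conjecture. -/
theorem final {V : Type} [Fintype V] (f : (V → Bool) → Bool) (hm : Monotone f)
    (hnc : ∃ x y, f x ≠ f y)
    (htr : ∀ i j : V, ∃ σ : Equiv.Perm V, σ i = j ∧ ∀ x : V → Bool, f (x ∘ σ) = f x)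
    (T : DT V) (hT : ∀ x, T.eval x = f x) (hd : T.depth + 1 ≤ Fintype.card V) :
    ¬ (∀ ε : ℝ, 0 < ε → ∃ N : ℕ, ∀ n : ℕ, N ≤ n →
      ∀ f : (Fin n → Bool) → Bool,
        Monotone f →
        (∃ x y : Fin n → Bool, f x ≠ f y) →
        (∀ i j : Fin n, ∃ σ : Equiv.Perm (Fin n), σ i = j ∧
            ∀ x : Fin n → Bool, f (x ∘ σ) = f x) →
        ∀ (d : ℕ) (Q : List Bool → Fin n),
          (∀ x y : Fin n → Bool, ∀ p : ℕ → Fin n,
              (∀ k : ℕ, k < d → p k = Q (List.ofFn (fun j : Fin k => x (p j.val)))) →
              (∀ k : ℕ, k < d → x (p k) = y (p k)) →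
              f x = f y) →
          (n : ℝ) ^ (1 - ε) ≤ (d : ℝ)) := by
  intro H
  set m := Fintype.card V with hmdef
  -- depth at least one
  have hdep : 1 ≤ T.depth := by
    obtain ⟨x, y, hxy⟩ := hnc
    cases T with
    | leaf b => exact absurd ((hT x).symm.trans (hT y)) hxy
    | node v t0 t1 => simp [DT.depth]
  have hm2 : 2 ≤ m := by omega
  have hf0 : f (fun _ => false) = false := by
    by_contra h
    have h' : f (fun _ => false) = true := by simpa using h
    obtain ⟨x, y, hxy⟩ := hnc
    have hx : f x = true := by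
      have := hm (show (fun _ => false) ≤ x from fun _ => Bool.false_le _)
      rw [h'] at this
      revert this
      cases f x <;> decide
    have hy : f y = true := by
      have := hm (show (fun _ => false) ≤ y from fun _ => Bool.false_le _)
      rw [h'] at this
      revert this
      cases f y <;> decide
    exact hxy (hx.trans hy.symm)
  have hf1 : f (fun _ => true) = true := by
    by_contra h
    have h' : f (fun _ => true) = false := by simpa using h
    obtain ⟨x, y, hxy⟩ := hnc
    have hx : f x = false := by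
      have := hm (show x ≤ (fun _ => true) from fun _ => Bool.le_true _)
      rw [h'] at this
      revert this
      cases f x <;> decide
    have hy : f y = false := by
      have := hm (show y ≤ (fun _ => true) from fun _ => Bool.le_true _)
      rw [h'] at this
      revert this
      cases f y <;> decide
    exact hxy (hx.trans hy.symm)
  have hmR : (2 : ℝ) ≤ (m : ℝ) := by exact_mod_cast hm2
  have hlogm : 0 < Real.log m := Real.log_pos (by linarith)
  have hlt : Real.log ((m : ℝ) - 1) < Real.log m :=
    Real.log_lt_log (by linarith) (by linarith)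
  set ε : ℝ := (Real.log m - Real.log ((m : ℝ) - 1)) / (2 * Real.log m) with hε
  have hεpos : 0 < ε := div_pos (by linarith) (by linarith)
  obtain ⟨N, hN⟩ := H ε hεpos
  -- choose k
  obtain ⟨k, hk⟩ : ∃ k : ℕ, N ≤ m ^ (k + 1) := by
    refine ⟨N, ?_⟩
    calc N ≤ N + 1 := Nat.le_succ _
      _ ≤ m ^ (N + 1) := (Nat.lt_pow_self (by omega)).le
  obtain ⟨t, ht, htd⟩ := pow_tree f T hT (k + 1)
  have hcard : Fintype.card (PV V (k + 1)) = m ^ (k + 1) := card_PV V (k + 1)
  let e : PV V (k + 1) ≃ Fin (m ^ (k + 1)) := Fintype.equivFinOfCardEq hcard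
  have hpos : 0 < m ^ (k + 1) := by positivity
  have : Inhabited (Fin (m ^ (k + 1))) := ⟨⟨0, hpos⟩⟩
  have key := hN (m ^ (k + 1)) hk (fun x => pow f (k + 1) (fun w => x (e w)))
    (by
      intro x y hxy
      exact pow_mono f hm (k + 1) (fun w => hxy (e w)))
    ⟨fun _ => false, fun _ => true, by
      simp only [pow_const f false hf0, pow_const f true hf1]
      decide⟩
    (by
      intro i j
      obtain ⟨σ, hσ, hσ'⟩ := pow_trans f htr (k + 1) (e.symm i) (e.symm j)
      refine ⟨(e.symm.trans σ).trans e, ?_, ?_⟩
      · simp [hσ]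
      · intro x
        have := hσ' (fun w => x (e w))
        rw [← this]
        congr 1
        funext w
        simp)
    ((m - 1) ^ (k + 1))
    (fun l => ((DT.map e t).query l).getD default)
    (by
      intro x y p hp hxy
      have h := DT.eval_eq_of_path (DT.map e t) ((m - 1) ^ (k + 1)) (by
          rw [DT.depth_map]
          exact htd.trans (Nat.pow_le_pow_left (by omega) _)) x y p hp hxy
      rw [DT.eval_map, DT.eval_map, ht, ht] at h
      exact h)
  -- contradiction
  have h1 : ((m - 1 : ℕ) : ℝ) = (m : ℝ) - 1 := by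
    rw [Nat.cast_sub (by omega)]
    simp
  have h2 : (((m ^ (k + 1) : ℕ) : ℝ)) ^ (1 - ε) = ((m : ℝ) ^ (1 - ε)) ^ (k + 1) := by
    rw [Nat.cast_pow, ← Real.rpow_natCast, ← Real.rpow_natCast, ← Real.rpow_mul (by positivity),
      ← Real.rpow_mul (by positivity), mul_comm]
  have h3 : (((m - 1) ^ (k + 1) : ℕ) : ℝ) = ((m : ℝ) - 1) ^ (k + 1) := by
    rw [Nat.cast_pow, h1]
  rw [h2, h3] at key
  have h4 : (m : ℝ) - 1 < (m : ℝ) ^ (1 - ε) := by
    have hm1 : (0 : ℝ) < (m : ℝ) - 1 := by linarith
    rw [← Real.exp_log hm1, Real.rpow_def_of_pos (by linarith)]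
    apply Real.exp_lt_exp.mpr
    have h5 : Real.log m * (1 - ε) = (Real.log m + Real.log ((m : ℝ) - 1)) / 2 := by
      rw [hε]
      field_simp
      ring
    rw [h5]
    linarith
  have h6 : ((m : ℝ) - 1) ^ (k + 1) < ((m : ℝ) ^ (1 - ε)) ^ (k + 1) :=
    pow_lt_pow_left₀ h4 (by linarith) (by omega)
  linarith

end Pool.Agent.H128R2.Evas
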