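import Pool.Agent.H128R2.Evas.Final

set_option autoImplicit false

namespace Pool.Agent.H128R2.Evas

/-- `Win F P N`: knowing that the elements of `P` are present and those of `N` are absent, one can
determine `F` and leave at least one variable unqueried. -/
inductive Win {W : Type} (F : Set W → Prop) : Set W → Set W → Prop
  | base (P N : Set W) (z : W) (hzP : z ∉ P) (hzN : z ∉ N)
      (h : ∀ X : Set W, P ⊆ X → Disjoint X N → (F (insert z X) ↔ F (X \ {z}))) : Win F P N
  | step (P N : Set W) (z : W) (hzP : z ∉ P) (hzN : z ∉ N)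
      (h1 : Win F (insert z P) N) (h0 : Win F P (insert z N)) : Win F P N

/-- Querying a finite set of variables until a present one is found. -/
theorem Win.scan {W : Type} {F : Set W → Prop} {P : Set W} (Q : Finset W) :
    ∀ N : Set W, (∀ q ∈ Q, q ∉ P ∧ q ∉ N) →
      (∀ q ∈ Q, ∀ N' : Set W, N' ⊆ (Q : Set W) → q ∉ N' → Win F (insert q P) (N ∪ N')) →
      Win F P (N ∪ (Q : Set W)) → Win F P N := by
  classical
  induction Q using Finset.induction_on with
  | empty =>
    intro N _ _ h0
    simpa using h0
  | insert a Q ha ih =>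
    intro N hQ h1 h0
    have haQ := hQ a (Finset.mem_insert_self a Q)
    refine Win.step P N a haQ.1 haQ.2 ?_ ?_
    · have := h1 a (Finset.mem_insert_self a Q) ∅ (Set.empty_subset _) (Set.notMem_empty a)
      simpa using this
    · refine ih (insert a N) ?_ ?_ ?_
      · intro q hq
        have hqQ := hQ q (Finset.mem_insert_of_mem hq)
        refine ⟨hqQ.1, ?_⟩
        rintro (rfl | h)
        · exact ha hq
        · exact hqQ.2 h
      · intro q hq N' hN' hqN'
        have := h1 q (Finset.mem_insert_of_mem hq) (insert a N') (by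
            rintro w (rfl | hw)
            · simp
            · simp only [Finset.coe_insert]
              exact Set.mem_insert_of_mem _ (hN' hw)) (by
            rintro (rfl | h)
            · exact ha hq
            · exact hqN' h)
        have he : N ∪ insert a N' = insert a N ∪ N' := by
          ext w; simp only [Set.mem_union, Set.mem_insert_iff]; tauto
        rwa [he] at this
      · have he : N ∪ ((insert a Q : Finset W) : Set W) = insert a N ∪ (Q : Set W) := by
          ext w; simp only [Set.mem_union, Set.mem_insert_iff, Finset.coe_insert]; tauto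
        rwa [he] at h0

/-- Scanning a set of variables in a finite type. -/
theorem Win.scanSet {W : Type} [Finite W] {F : Set W → Prop} {P N : Set W} (Q : Set W)
    (hQ : ∀ q ∈ Q, q ∉ P ∧ q ∉ N)
    (h1 : ∀ q ∈ Q, ∀ N' : Set W, N' ⊆ Q → q ∉ N' → Win F (insert q P) (N ∪ N'))
    (h0 : Win F P (N ∪ Q)) : Win F P N := by
  classical
  have hQf : Q.Finite := Set.toFinite Q
  refine Win.scan hQf.toFinset N ?_ ?_ ?_
  · intro q hq
    exact hQ q (by simpa using hq)
  · intro q hq N' hN' hqN'
    exact h1 q (by simpa using hq) N' (by simpa using hN') hqN'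
  · simpa using h0

/-- A full decision tree querying the variables of `U`. -/
theorem fullTree {W : Type} (F : Set W → Prop) (U : Finset W) : ∀ P N : Set W,
    (∀ X Y : Set W, P ⊆ X → Disjoint X N → P ⊆ Y → Disjoint Y N → (∀ u ∈ U, u ∈ X ↔ u ∈ Y) →
      (F X ↔ F Y)) →
    ∃ T : DT W, (∀ x : W → Bool, P ⊆ {w | x w = true} → Disjoint {w | x w = true} N →
      (T.eval x = true ↔ F {w | x w = true})) ∧ T.depth ≤ U.card := by
  classical
  induction U using Finset.induction_on with
  | empty =>
    intro P N h
    by_cases hF : ∃ X : Set W, P ⊆ X ∧ Disjoint X N ∧ F X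
    · obtain ⟨X, hX1, hX2, hX3⟩ := hF
      refine ⟨DT.leaf true, ?_, by simp [DT.depth]⟩
      intro x h1 h2
      simp only [DT.eval, true_iff]
      exact (h X _ hX1 hX2 h1 h2 (by simp)).1 hX3
    · refine ⟨DT.leaf false, ?_, by simp [DT.depth]⟩
      intro x h1 h2
      simp only [DT.eval, Bool.false_eq_true, false_iff]
      exact fun h3 => hF ⟨_, h1, h2, h3⟩
  | insert u U hu ih =>
    intro P N h
    obtain ⟨T1, hT1, hd1⟩ := ih (insert u P) N (by
      intro X Y hX1 hX2 hY1 hY2 hXY
      refine h X Y ((Set.subset_insert _ _).trans hX1) hX2 ((Set.subset_insert _ _).trans hY1)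
        hY2 ?_
      intro w hw
      rcases Finset.mem_insert.1 hw with rfl | hw
      · exact ⟨fun _ => hY1 (Set.mem_insert _ _), fun _ => hX1 (Set.mem_insert _ _)⟩
      · exact hXY w hw)
    obtain ⟨T0, hT0, hd0⟩ := ih P (insert u N) (by
      intro X Y hX1 hX2 hY1 hY2 hXY
      rw [Set.disjoint_insert_right] at hX2 hY2
      refine h X Y hX1 hX2.2 hY1 hY2.2 ?_
      intro w hw
      rcases Finset.mem_insert.1 hw with rfl | hw
      · exact ⟨fun h => absurd h hX2.1, fun h => absurd h hY2.1⟩
      · exact hXY w hw)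
    refine ⟨DT.node u T0 T1, ?_, ?_⟩
    · intro x h1 h2
      simp only [DT.eval]
      split_ifs with hxu
      · exact hT1 x (Set.insert_subset (by simpa using hxu) h1) h2
      · refine hT0 x h1 ?_
        rw [Set.disjoint_insert_right]
        exact ⟨by simpa using hxu, h2⟩
    · simp only [DT.depth, Finset.card_insert_of_notMem hu]
      omega

/-- `Win` produces a decision tree leaving one variable unqueried. -/
theorem Win.tree {W : Type} [Fintype W] {F : Set W → Prop} {P N : Set W} (h : Win F P N) :
    ∃ T : DT W, (∀ x : W → Bool, P ⊆ {w | x w = true} → Disjoint {w | x w = true} N →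
      (T.eval x = true ↔ F {w | x w = true})) ∧ T.depth + 1 ≤ ((P ∪ N)ᶜ).ncard := by
  classical
  induction h with
  | base P N z hzP hzN h =>
    let U : Finset W := ((P ∪ N)ᶜ \ {z}).toFinset
    obtain ⟨T, hT, hd⟩ := fullTree F U P N (by
      intro X Y hX1 hX2 hY1 hY2 hXY
      have h1 : ∀ X : Set W, P ⊆ X → Disjoint X N → (F X ↔ F (X \ {z})) := by
        intro X hX1 hX2
        by_cases hz : z ∈ X
        · have := h X hX1 hX2
          rwa [Set.insert_eq_of_mem hz] at this
        · rw [Set.sdiff_singleton_eq_self hz]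
      rw [h1 X hX1 hX2, h1 Y hY1 hY2]
      have he : X \ {z} = Y \ {z} := by
        ext w
        simp only [Set.mem_sdiff, Set.mem_singleton_iff]
        by_cases hw : w = z
        · simp [hw]
        · by_cases hwP : w ∈ P
          · simp [hX1 hwP, hY1 hwP]
          · by_cases hwN : w ∈ N
            · have h2 := Set.disjoint_right.1 hX2 hwN
              have h3 := Set.disjoint_right.1 hY2 hwN
              simp [h2, h3]
            · have := hXY w (by simp [U, hw, hwP, hwN])
              simp [this]
      rw [he])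
    refine ⟨T, hT, ?_⟩
    have hz : z ∈ (P ∪ N)ᶜ := by simp [hzP, hzN]
    have hcard : U.card = ((P ∪ N)ᶜ \ {z}).ncard := (Set.ncard_eq_toFinset_card' _).symm
    have := Set.ncard_sdiff_singleton_add_one hz (Set.toFinite _)
    omega
  | step P N z hzP hzN _ _ ih1 ih0 =>
    obtain ⟨T1, hT1, hd1⟩ := ih1
    obtain ⟨T0, hT0, hd0⟩ := ih0
    refine ⟨DT.node z T0 T1, ?_, ?_⟩
    · intro x h1 h2
      simp only [DT.eval]
      split_ifs with hxu
      · exact hT1 x (Set.insert_subset (by simpa using hxu) h1) h2
      · refine hT0 x h1 ?_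
        rw [Set.disjoint_insert_right]
        exact ⟨by simpa using hxu, h2⟩
    · simp only [DT.depth]
      have hz : z ∈ (P ∪ N)ᶜ := by simp [hzP, hzN]
      have h3 := Set.ncard_sdiff_singleton_add_one hz (Set.toFinite _)
      have e1 : (insert z P ∪ N)ᶜ = (P ∪ N)ᶜ \ {z} := by
        ext w; simp only [Set.mem_compl_iff, Set.mem_union, Set.mem_insert_iff, Set.mem_sdiff,
          Set.mem_singleton_iff]; tauto
      have e0 : (P ∪ insert z N)ᶜ = (P ∪ N)ᶜ \ {z} := by
        ext w; simp only [Set.mem_compl_iff, Set.mem_union, Set.mem_insert_iff, Set.mem_sdiff,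
          Set.mem_singleton_iff]; tauto
      rw [e1] at hd1
      rw [e0] at hd0
      omega

/-- A monotone, nonconstant, transitive set function with `Win F ∅ ∅` refutes the weak evasiveness
conjecture. -/
theorem finalWin {W : Type} [Finite W] (F : Set W → Prop) (hmono : ∀ X Y, X ⊆ Y → F X → F Y)
    (h0 : ¬ F ∅) (h1 : F Set.univ)
    (htr : ∀ i j : W, ∃ σ : Equiv.Perm W, σ i = j ∧ ∀ X : Set W, F (σ ⁻¹' X) ↔ F X)
    (hwin : Win F ∅ ∅) :
    ¬ (∀ ε : ℝ, 0 < ε → ∃ N : ℕ, ∀ n : ℕ, N ≤ n →
      ∀ f : (Fin n → Bool) → Bool,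
        Monotone f →
        (∃ x y : Fin n → Bool, f x ≠ f y) →
        (∀ i j : Fin n, ∃ σ : Equiv.Perm (Fin n), σ i = j ∧
            ∀ x : Fin n → Bool, f (x ∘ σ) = f x) →
        ∀ (d : ℕ) (Q : List Bool → Fin n),
          (∀ x y : Fin n → Bool, ∀ p : ℕ → Fin n,
              (∀ k : ℕ, k < d → p k = Q (List.ofFn (fun j : Fin k => x (p j.val)))) →
              (∀ k : ℕ, k < d → x (p k) = y (p k)) →
              f x = f y) →
          (n : ℝ) ^ (1 - ε) ≤ (d : ℝ)) := by
  classical
  have : Fintype W := Fintype.ofFinite W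
  obtain ⟨T, hT, hd⟩ := hwin.tree
  refine final (V := W) (fun x => decide (F {w | x w = true})) ?_ ?_ ?_ T ?_ ?_
  · intro x y hxy
    by_cases hx : F {w | x w = true}
    · have hy : F {w | y w = true} := by
        refine hmono _ _ ?_ hx
        intro w hw
        have := hxy w
        have hw' : x w = true := hw
        show y w = true
        rw [hw'] at this
        exact le_antisymm (Bool.le_true _) this
      simp [hy]
    · simp [hx]
  · refine ⟨fun _ => false, fun _ => true, ?_⟩
    simp [h0, h1, show {w : W | True} = Set.univ from rfl]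
  · intro i j
    obtain ⟨σ, hσ, hσ'⟩ := htr i j
    refine ⟨σ, hσ, ?_⟩
    intro x
    have := hσ' {w | x w = true}
    simp only [Set.preimage_ofPred_eq] at this
    simp [this]
  · intro x
    have := hT x (Set.empty_subset _) (Set.disjoint_empty _)
    by_cases hx : F {w | x w = true}
    · simp [hx, this.2 hx]
    · have h3 : ¬ T.eval x = true := fun h => hx (this.1 h)
      simp [hx, h3]
  · have : ((∅ ∪ ∅ : Set W)ᶜ).ncard = Fintype.card W := by
      simp [Set.ncard_univ]
    rwa [this] at hd

end Pool.Agent.H128R2.Evas
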